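import Mathlib

set_option autoImplicit false

/-!
# When the generalised Graham function `g_m (n)` equals `2 n`, for odd `m`

For a composite `n = a b` with `(a - 1) (b - 1) > 2` the identity
`n · (a + 1) (b + 1) = a (b + 1) · (a + 1) b` gives an `m`-product sequence from `n` to
`(a + 1) (b + 1) < 2 n`.  The remaining composite numbers are `4` and `6`.
-/

namespace Pool.Agent.Results.MP_c9219e_nt.OddCharacterisation

open Finset

/-- An `m`-product sequence: a finite non-decreasing sequence of integers whose product is the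
`m`-th power of a natural number and in which each integer occurs at most `m - 1` times. -/
def IsProductSeq (m : ℕ) (l : List ℕ) : Prop :=
  l.Pairwise (· ≤ ·) ∧ (∃ R : ℕ, l.prod = R ^ m) ∧ ∀ x : ℕ, l.count x ≤ m - 1

/-- The possible last terms of the `m`-product sequences with first term `n`. -/
def lastTerms (m n : ℕ) : Set ℕ :=
  {s | ∃ l : List ℕ, IsProductSeq m l ∧ l.head? = some n ∧ l.getLast? = some s}

/-- `g m n` is the smallest possible last term of an `m`-product sequence with first term `n`. -/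
noncomputable def g (m n : ℕ) : ℕ := sInf (lastTerms m n)

theorem g_le {m n s : ℕ} (h : s ∈ lastTerms m n) : g m n ≤ s := Nat.sInf_le h

theorem mem_of_lt {m a b : ℕ} (hm : 2 ≤ m) (ha : 0 < a) (hab : a < b) :
    (a + 1) * (b + 1) ∈ lastTerms m (a * b) := by
  have h1 : a * b < a * (b + 1) := by nlinarith
  have h2 : a * (b + 1) < (a + 1) * b := by nlinarith
  have h3 : (a + 1) * b < (a + 1) * (b + 1) := by nlinarith
  refine ⟨a * b :: (List.replicate (m - 1) (a * (b + 1)) ++
    (List.replicate (m - 1) ((a + 1) * b) ++ [(a + 1) * (b + 1)])), ⟨?_, ?_, ?_⟩, rfl, ?_⟩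
  · simp only [List.pairwise_cons, List.pairwise_append, List.mem_append, List.mem_replicate,
      List.pairwise_replicate, List.mem_singleton]
    refine ⟨?_, Or.inr le_rfl, ⟨Or.inr le_rfl, ⟨by simp, List.Pairwise.nil⟩, ?_⟩, ?_⟩
    · rintro x (⟨_, rfl⟩ | ⟨_, rfl⟩ | rfl)
      · exact h1.le
      · exact (h1.trans h2).le
      · exact (h1.trans (h2.trans h3)).le
    · rintro x ⟨_, rfl⟩ y rfl; exact h3.le
    · rintro x ⟨_, rfl⟩ y (⟨_, rfl⟩ | rfl)
      · exact h2.le
      · exact (h2.trans h3).le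
  · refine ⟨a * b * ((a + 1) * (b + 1)), ?_⟩
    simp only [List.prod_cons, List.prod_append, List.prod_replicate, List.prod_nil, mul_one]
    obtain ⟨k, rfl⟩ : ∃ k, m = k + 1 := ⟨m - 1, by omega⟩
    rw [Nat.add_sub_cancel, pow_succ]
    have e : (a * b * ((a + 1) * (b + 1))) ^ k = (a * (b + 1)) ^ k * ((a + 1) * b) ^ k := by
      rw [← mul_pow]; congr 1; ring
    rw [e]
    generalize (a * (b + 1)) ^ k = X
    generalize ((a + 1) * b) ^ k = Y
    ring
  · intro x
    rw [List.count_cons, List.count_append, List.count_append, List.count_replicate,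
      List.count_replicate, List.count_singleton]
    simp only [beq_iff_eq]
    split_ifs <;> omega
  · simp [List.getLast?_append, List.getLast?_cons]

theorem mem_of_sq {m a : ℕ} (hm : 3 ≤ m) (ha : 0 < a) :
    (a + 1) * (a + 1) ∈ lastTerms m (a * a) := by
  have h1 : a * a < a * (a + 1) := by nlinarith
  have h2 : a * (a + 1) < (a + 1) * (a + 1) := by nlinarith
  refine ⟨a * a :: (List.replicate (m - 2) (a * (a + 1)) ++ [(a + 1) * (a + 1)]),
    ⟨?_, ?_, ?_⟩, rfl, ?_⟩
  · simp only [List.pairwise_cons, List.pairwise_append, List.mem_append, List.mem_replicate,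
      List.pairwise_replicate, List.mem_singleton]
    refine ⟨?_, Or.inr le_rfl, ⟨by simp, List.Pairwise.nil⟩, ?_⟩
    · rintro x (⟨_, rfl⟩ | rfl)
      · exact h1.le
      · exact (h1.trans h2).le
    · rintro x ⟨_, rfl⟩ y rfl; exact h2.le
  · refine ⟨a * (a + 1), ?_⟩
    simp only [List.prod_cons, List.prod_append, List.prod_replicate, List.prod_nil, mul_one]
    obtain ⟨k, rfl⟩ : ∃ k, m = k + 2 := ⟨m - 2, by omega⟩
    rw [Nat.add_sub_cancel]
    ring
  · intro x
    rw [List.count_cons, List.count_append, List.count_replicate, List.count_singleton]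
    simp only [beq_iff_eq]
    split_ifs <;> omega
  · simp [List.getLast?_append, List.getLast?_cons]

theorem mem_one {m : ℕ} (hm : 2 ≤ m) : 1 ∈ lastTerms m 1 := by
  refine ⟨[1], ⟨by simp, ⟨1, by simp⟩, ?_⟩, rfl, rfl⟩
  intro x
  rw [List.count_singleton]
  split_ifs <;> omega

theorem mem_six {m : ℕ} (hm : 5 ≤ m) (ho : Odd m) : 9 ∈ lastTerms m 6 := by
  obtain ⟨t, rfl⟩ := ho
  refine ⟨List.replicate 3 6 ++ (List.replicate (2 * t) 8 ++ List.replicate (t - 1) 9),
    ⟨?_, ?_, ?_⟩, rfl, ?_⟩
  · simp only [List.pairwise_append, List.mem_append, List.mem_replicate,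
      List.pairwise_replicate]
    refine ⟨Or.inr le_rfl, ⟨Or.inr le_rfl, Or.inr le_rfl, ?_⟩, ?_⟩
    · rintro x ⟨_, rfl⟩ y ⟨_, rfl⟩; norm_num
    · rintro x ⟨_, rfl⟩ y (⟨_, rfl⟩ | ⟨_, rfl⟩) <;> norm_num
  · refine ⟨24, ?_⟩
    simp only [List.prod_append, List.prod_replicate]
    obtain ⟨k, rfl⟩ : ∃ k, t = k + 1 := ⟨t - 1, by omega⟩
    have e1 : (8 : ℕ) ^ (2 * (k + 1)) = 64 * 64 ^ k := by
      rw [pow_mul, pow_succ, mul_comm]; norm_num
    have e2 : (24 : ℕ) ^ (2 * (k + 1) + 1) = 13824 * (64 ^ k * 9 ^ k) := by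
      rw [pow_succ, pow_mul, pow_succ, ← mul_pow]
      norm_num
      ring
    rw [Nat.add_sub_cancel, e1, e2]
    ring
  · intro x
    rw [List.count_append, List.count_append, List.count_replicate, List.count_replicate,
      List.count_replicate]
    simp only [beq_iff_eq]
    split_ifs <;> omega
  · obtain ⟨k, rfl⟩ : ∃ k, t = k + 2 := ⟨t - 2, by omega⟩
    rw [List.getLast?_append, List.getLast?_append, List.getLast?_replicate]
    simp

theorem four_check : ∀ c4 ∈ Finset.Icc 1 2, ∀ c5 ∈ Finset.range 3, ∀ c6 ∈ Finset.range 3,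
    ∀ c7 ∈ Finset.range 3, ∀ c8 ∈ Finset.range 3, ∀ R ∈ Finset.range 357,
    4 ^ c4 * 5 ^ c5 * 6 ^ c6 * 7 ^ c7 * 8 ^ c8 ≠ R ^ 3 := by decide +kernel

theorem not_mem_four : 8 ∉ lastTerms 3 4 := by
  rintro ⟨l, ⟨h1, ⟨R, hR⟩, h3⟩, h4, h5⟩
  have hmem : ∀ x ∈ l, 4 ≤ x ∧ x ≤ 8 := by
    intro x hx
    constructor
    · cases l with
      | nil => simp at hx
      | cons y l =>
        rw [List.head?_cons, Option.some.injEq] at h4
        rw [List.pairwise_cons] at h1
        rcases List.mem_cons.1 hx with h | h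
        · omega
        · have := h1.1 x h; omega
    · obtain ⟨l', rfl⟩ : ∃ l', l = l' ++ [8] := by
        have hne : l ≠ [] := by rintro rfl; simp at hx
        refine ⟨l.dropLast, ?_⟩
        rw [List.getLast?_eq_some_getLast hne, Option.some.injEq] at h5
        rw [← h5]
        exact (List.dropLast_append_getLast hne).symm
      rw [List.pairwise_append] at h1
      rcases List.mem_append.1 hx with h | h
      · exact h1.2.2 x h 8 (by simp)
      · simp at h; omega
  have hsub : l.toFinset ⊆ Finset.Icc 4 8 := by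
    intro x hx
    rw [List.mem_toFinset] at hx
    rw [Finset.mem_Icc]; exact hmem x hx
  have hprod := Finset.prod_list_count_of_subset l (Finset.Icc 4 8) hsub
  have hIcc : Finset.Icc 4 8 = ({4, 5, 6, 7, 8} : Finset ℕ) := by decide
  rw [hIcc, Finset.prod_insert (by decide), Finset.prod_insert (by decide),
    Finset.prod_insert (by decide), Finset.prod_insert (by decide), Finset.prod_singleton,
    hR] at hprod
  have h41 : 1 ≤ l.count 4 := by
    apply List.one_le_count_iff.2
    exact List.mem_of_mem_head? h4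
  have hle : ∀ x, l.count x ≤ 2 := h3
  have hR2 : R < 357 := by
    by_contra hcon
    have e1 : 357 ^ 3 ≤ R ^ 3 := Nat.pow_le_pow_left (by omega) 3
    rw [hprod] at e1
    have e2 : 4 ^ l.count 4 * (5 ^ l.count 5 * (6 ^ l.count 6 * (7 ^ l.count 7 * 8 ^ l.count 8)))
        ≤ 4 ^ 2 * (5 ^ 2 * (6 ^ 2 * (7 ^ 2 * 8 ^ 2))) := by
      gcongr
      all_goals first | exact hle _ | norm_num
    have e3 := e1.trans e2
    norm_num at e3
  exact four_check (l.count 4) (Finset.mem_Icc.2 ⟨h41, hle 4⟩) (l.count 5)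
    (Finset.mem_range.2 (Nat.lt_succ_of_le (hle 5))) (l.count 6)
    (Finset.mem_range.2 (Nat.lt_succ_of_le (hle 6))) (l.count 7)
    (Finset.mem_range.2 (Nat.lt_succ_of_le (hle 7))) (l.count 8)
    (Finset.mem_range.2 (Nat.lt_succ_of_le (hle 8))) R
    (Finset.mem_range.2 hR2) (by rw [hprod]; ring)

/-- For every odd `m ≥ 3` and every natural `n`: if `g_m (n) = 2 n` then `n = 0`, or `n` is prime,
or `n = 4` and `m ≥ 5`, or `(m, n) = (3, 6)`. -/
theorem result : ∀ m : ℕ, Odd m → 3 ≤ m → ∀ n : ℕ, g m n = 2 * n →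
    n = 0 ∨ n.Prime ∨ (n = 4 ∧ 5 ≤ m) ∨ (m = 3 ∧ n = 6) := by
  intro m ho hm n hg
  by_contra hcon
  push Not at hcon
  obtain ⟨h0, hp, h4, h6⟩ := hcon
  rcases Nat.lt_or_ge n 2 with h1 | h1
  · have : n = 1 := by omega
    subst this
    have := g_le (mem_one (m := m) (by omega))
    omega
  obtain ⟨a, b, ha, hab, hn⟩ : ∃ a b : ℕ, 2 ≤ a ∧ a ≤ b ∧ n = a * b := by
    refine ⟨n.minFac, n / n.minFac, (Nat.minFac_prime (by omega)).two_le,
      Nat.minFac_le_div (by omega) hp, (Nat.mul_div_cancel' (Nat.minFac_dvd n)).symm⟩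
  by_cases hlt : (a + 1) * (b + 1) < 2 * (a * b)
  · have hmem : (a + 1) * (b + 1) ∈ lastTerms m n := by
      rcases Nat.eq_or_lt_of_le hab with h | h
      · subst h; rw [hn]; exact mem_of_sq hm (by omega)
      · rw [hn]; exact mem_of_lt (by omega) (by omega) h
    have := g_le hmem
    rw [hg, hn] at this
    omega
  · have ha2 : a = 2 := by
      by_contra h
      have : 3 ≤ a := by omega
      apply hlt
      nlinarith
    subst ha2
    have hb : b = 2 ∨ b = 3 := by omega
    rcases hb with rfl | rfl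
    · have hm3 : m = 3 := by
        have := h4 (by omega)
        obtain ⟨t, rfl⟩ := ho
        omega
      subst hm3
      have hne : (lastTerms 3 n).Nonempty := by
        by_contra hne
        rw [Set.not_nonempty_iff_eq_empty] at hne
        rw [g, hne, Nat.sInf_empty] at hg
        omega
      have h8 := Nat.sInf_mem hne
      rw [← g, hg, hn] at h8
      exact not_mem_four h8
    · have hm5 : 5 ≤ m := by
        have : m ≠ 3 := fun h => h6 h (by omega)
        obtain ⟨t, rfl⟩ := ho
        omega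
      have h9 : g m 6 ≤ 9 := g_le (mem_six hm5 ho)
      rw [show n = 6 by omega] at hg
      omega

end Pool.Agent.Results.MP_c9219e_nt.OddCharacterisation
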